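import Mathlib

set_option autoImplicit false

namespace Pool.Agent.Results.MP_34bddf_lc.Counter

/-- Extension of an operation on the positive integers to ultrafilters:
`A ∈ ext op F G ↔ {n | {m | op n m ∈ A} ∈ G} ∈ F`. -/
def ext (op : ℕ+ → ℕ+ → ℕ+) (F G : Ultrafilter ℕ+) : Ultrafilter ℕ+ :=
  F.bind fun n => G.map (op n)

/-- Ultrafilters divisible by every positive integer. -/
def MAX : Set (Ultrafilter ℕ+) := {F | ∀ n : ℕ+, {m | ∃ k, m = n * k} ∈ F}

/-- The closure of the set of additive idempotents. -/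
def Gamma : Set (Ultrafilter ℕ+) := closure {F | ext (· + ·) F F = F}

/-- Two-sided ideals for the extended multiplication. -/
def IsIdeal (I : Set (Ultrafilter ℕ+)) : Prop :=
  I.Nonempty ∧ ∀ F ∈ I, ∀ G, ext (· * ·) G F ∈ I ∧ ext (· * ·) F G ∈ I

theorem mem_ext (op : ℕ+ → ℕ+ → ℕ+) (F G : Ultrafilter ℕ+) (A : Set ℕ+) :
    A ∈ ext op F G ↔ {n | {m | op n m ∈ A} ∈ G} ∈ F :=
  Filter.mem_bind' (f := (F : Filter ℕ+)) (m := fun n => ((G.map (op n) : Ultrafilter ℕ+) : Filter ℕ+))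

def Schur : Set (Ultrafilter ℕ+) := {F | ∀ A ∈ F, ∃ a ∈ A, ∃ b ∈ A, a + b ∈ A}

theorem gamma_sub : Gamma ⊆ Schur := by
  intro G hG A hA
  obtain ⟨H, h1, h2⟩ := mem_closure_iff.1 hG _ (ultrafilter_isOpen_basic A) hA
  have h3 : A ∈ ext (· + ·) H H := by rw [show ext (· + ·) H H = H from h2]; exact h1
  obtain ⟨a, ha, ha'⟩ := Ultrafilter.nonempty_of_mem (Filter.inter_mem h1 ((mem_ext ..).1 h3))
  obtain ⟨b, hb, hb'⟩ := Ultrafilter.nonempty_of_mem (Filter.inter_mem h1 ha')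
  exact ⟨a, ha, b, hb, hb'⟩

theorem schur_ideal : IsIdeal Schur := by
  refine ⟨?_, fun F hF G => ⟨fun A hA => ?_, fun A hA => ?_⟩⟩
  · let _ := @Ultrafilter.addSemigroup ℕ+ _
    obtain ⟨U, hU⟩ := exists_idempotent_of_compact_t2_of_continuous_add_left
      (@Ultrafilter.continuous_add_left ℕ+ _)
    refine ⟨U, gamma_sub (subset_closure (Ultrafilter.ext fun A => ?_))⟩
    rw [mem_ext]
    conv_rhs => rw [← hU]
    exact (Ultrafilter.eventually_add U U (· ∈ A)).symm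
  · obtain ⟨n, hn⟩ := Ultrafilter.nonempty_of_mem ((mem_ext ..).1 hA)
    obtain ⟨a, ha, b, hb, hab⟩ := hF _ hn
    exact ⟨_, ha, _, hb, by rw [← mul_add]; exact hab⟩
  · obtain ⟨a, ha, b, hb, hab⟩ := hF _ ((mem_ext ..).1 hA)
    obtain ⟨m, ⟨h1, h2⟩, h3⟩ :=
      Ultrafilter.nonempty_of_mem (Filter.inter_mem (Filter.inter_mem ha hb) hab)
    exact ⟨_, h1, _, h2, by rw [← add_mul]; exact h3⟩

/-- Some ultrafilter in `MAX` lies outside the ideal generated by `Gamma`. -/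
theorem result : ∃ F ∈ MAX, F ∉ ⋂₀ {I | IsIdeal I ∧ Gamma ⊆ I} := by
  let f : ℕ → ℕ+ := fun n => ⟨(n + 3).factorial, Nat.factorial_pos _⟩
  refine ⟨(Filter.hyperfilter ℕ).map f, fun n => ?_, fun h => ?_⟩
  · rw [Ultrafilter.mem_map]
    refine Filter.mem_of_superset (Nat.hyperfilter_le_atTop (Filter.mem_atTop (n : ℕ)))
      fun m hm => ?_
    exact PNat.dvd_iff.2 (Nat.dvd_factorial n.2 (le_trans hm (Nat.le_add_right _ 3)))
  · obtain ⟨_, ⟨a, rfl⟩, _, ⟨b, rfl⟩, c, hc⟩ :=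
      h _ ⟨schur_ideal, gamma_sub⟩ (Set.range f) Filter.range_mem_map
    have e : (c + 3).factorial = (a + 3).factorial + (b + 3).factorial := congrArg PNat.val hc
    have pa := Nat.factorial_pos (a + 3)
    have pb := Nat.factorial_pos (b + 3)
    have ha : a + 3 < c + 3 := (Nat.factorial_lt (by omega)).1 (by omega)
    have hb : b + 3 < c + 3 := (Nat.factorial_lt (by omega)).1 (by omega)
    have ha' := Nat.factorial_le (show a + 3 ≤ c + 2 by omega)
    have hb' := Nat.factorial_le (show b + 3 ≤ c + 2 by omega)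
    rw [Nat.factorial_succ (c + 2)] at e
    nlinarith

end Pool.Agent.Results.MP_34bddf_lc.Counter
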